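import Pool.Agent.helper15.P2.SpecI
import Pool.Agent.helper43.P2.CHN
import Pool.Agent.helper53.P2.MAU

/-!
# Row p2:CH1 (chain rule in one variable, Laplacian of the potential)
-/

set_option autoImplicit false

open scoped ContDiff Topology ComplexConjugate
open MeasureTheory Filter Set Metric

namespace Pool.Agent.P2I

open Pool.Agent.P2

theorem CH1_lap (g : ℂ → ℝ) (z : ℂ) :
    lap g z = (1 / 4) * (fderiv ℝ (fderiv ℝ g) z 1 1 + fderiv ℝ (fderiv ℝ g) z Complex.I Complex.I) := by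
  unfold lap
  rw [iteratedFDeriv_two_apply, iteratedFDeriv_two_apply]
  rfl

theorem CH1_bil (B : ℂ →L[ℝ] ℂ →L[ℝ] ℝ) (w : ℂ) :
    B w w + B (Complex.I • w) (Complex.I • w) = Complex.normSq w * (B 1 1 + B Complex.I Complex.I) := by
  have h1 : w = w.re • (1 : ℂ) + w.im • Complex.I := by
    apply Complex.ext <;> simp
  have h2 : Complex.I • w = (-w.im) • (1 : ℂ) + w.re • Complex.I := by
    apply Complex.ext <;> simp
  have e1 : ∀ x y : ℝ, B (x • (1 : ℂ) + y • Complex.I) (x • (1 : ℂ) + y • Complex.I) =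
      x ^ 2 * B 1 1 + x * y * B 1 Complex.I + x * y * B Complex.I 1 + y ^ 2 * B Complex.I Complex.I := by
    intro x y
    simp only [map_add, map_smul, _root_.add_apply, _root_.smul_apply, smul_eq_mul]
    ring
  rw [h2, e1]
  have e2 : B w w = w.re ^ 2 * B 1 1 + w.re * w.im * B 1 Complex.I + w.re * w.im * B Complex.I 1 +
      w.im ^ 2 * B Complex.I Complex.I := by
    rw [← e1, ← h1]
  rw [e2, Complex.normSq_apply]
  ring

theorem CH1_chain (Ω : Set ℂ) (X : ℂ → ℂ) (g : ℂ → ℝ) (t : ℂ) (hΩ : IsOpen Ω) (hX : DifferentiableOn ℂ X Ω)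
    (ht : t ∈ Ω) (hg : ContDiffAt ℝ 2 g (X t)) :
    lap (fun s => g (X s)) t = Complex.normSq (deriv X t) * lap g (X t) := by
  rw [CHN_lap X t g ?_ hg, CH1_lap, CH1_bil]
  · ring
  · filter_upwards [hΩ.mem_nhds ht] with z hz
    exact hX.differentiableAt (hΩ.mem_nhds hz)

theorem CH1_normSq : ContDiff ℝ ∞ (Complex.normSq : ℂ → ℝ) := by
  have e : (Complex.normSq : ℂ → ℝ) = fun z => z.re * z.re + z.im * z.im := by
    ext z
    exact Complex.normSq_apply z
  rw [e]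
  have h1 : ContDiff ℝ ∞ (fun z : ℂ => z.re) := Complex.reCLM.contDiff
  have h2 : ContDiff ℝ ∞ (fun z : ℂ => z.im) := Complex.imCLM.contDiff
  exact (h1.mul h1).add (h2.mul h2)

theorem CH1_smooth (f : ℂ → ℂ) (Ω : Set ℂ) (hΩ : IsOpen Ω) (hf : DifferentiableOn ℂ f Ω) :
    ContDiffOn ℝ ∞ f Ω := by
  intro z hz
  have a1 : AnalyticAt ℂ f z := hf.analyticAt (hΩ.mem_nhds hz)
  exact ((a1.contDiffAt (n := ∞)).restrict_scalars ℝ).contDiffWithinAt

theorem CH1_Up (Ω : Set ℂ) (P Q : ℂ → ℂ) (hΩ : IsOpen Ω) (hP : DifferentiableOn ℂ P Ω)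
    (hQ : DifferentiableOn ℂ Q Ω) (hne : ∀ z ∈ Ω, P z ≠ 0 ∨ Q z ≠ 0) :
    ContDiffOn ℝ ∞ (Up P Q) Ω := by
  have hP' := CH1_smooth P Ω hΩ hP
  have hQ' := CH1_smooth Q Ω hΩ hQ
  have hN : ∀ z ∈ Ω, Complex.normSq (P z) + Complex.normSq (Q z) ≠ 0 := by
    intro z hz
    rcases hne z hz with h | h
    · have h1 := Complex.normSq_pos.2 h
      have h2 := Complex.normSq_nonneg (Q z)
      linarith
    · have h1 := Complex.normSq_pos.2 h
      have h2 := Complex.normSq_nonneg (P z)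
      linarith
  have h3 : ContDiffOn ℝ ∞ (fun z => Complex.normSq (P z) + Complex.normSq (Q z)) Ω :=
    (CH1_normSq.comp_contDiffOn hP').add (CH1_normSq.comp_contDiffOn hQ')
  exact contDiffOn_const.mul (h3.log hN)

theorem CH1 : CH1_stmt := by
  refine ⟨CH1_chain, ?_⟩
  intro Ω P Q hΩ hP hQ hne
  refine ⟨CH1_Up Ω P Q hΩ hP hQ hne, ?_⟩
  intro z hz
  have h := MAU_core P Q z 1 Ω hΩ hz hP hQ (hne z hz)
  have e : Up P Q = fun t => (1 / 2) * Real.log (Complex.normSq (P t) + Complex.normSq (Q t)) / 1 := by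
    funext t
    unfold Up
    rw [div_one]
  rw [e, h]
  unfold sph Wr
  have e2 : Complex.normSq (P z * deriv Q z - Q z * deriv P z) = Complex.normSq (Q z * deriv P z - P z * deriv Q z) := by
    rw [← Complex.normSq_neg]
    congr 1
    ring
  rw [e2]
  ring

end Pool.Agent.P2I
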