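import Pool.Agent.helper15.P2.SpecI
import Pool.Agent.helper53.P2.MAU
import Pool.Agent.helper51.P2.CH1

/-!
# Row p2:GT (the function `Gr` is touched from below by smooth subharmonic functions)
-/

set_option autoImplicit false

open scoped ContDiff Topology ComplexConjugate
open MeasureTheory Filter Set Metric

namespace Pool.Agent.P2I

open Pool.Agent.P2

theorem GT_lap_add (f g : ℂ → ℝ) (z : ℂ) (hf : ContDiffAt ℝ 2 f z) (hg : ContDiffAt ℝ 2 g z) :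
    lap (fun x => f x + g x) z = lap f z + lap g z := by
  unfold lap
  have h : iteratedFDeriv ℝ 2 (fun x => f x + g x) z = iteratedFDeriv ℝ 2 f z + iteratedFDeriv ℝ 2 g z :=
    iteratedFDeriv_add_apply (i := 2) (f := f) (g := g) hf hg
  rw [h]
  simp only [_root_.add_apply]
  ring

theorem GT_lap_mul (c : ℝ) (f : ℂ → ℝ) (z : ℂ) (hf : ContDiffAt ℝ 2 f z) :
    lap (fun x => c * f x) z = c * lap f z := by
  unfold lap
  have h : iteratedFDeriv ℝ 2 (fun x => c * f x) z = c • iteratedFDeriv ℝ 2 f z :=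
    iteratedFDeriv_const_smul_apply (a := c) (f := f) hf
  rw [h]
  simp only [_root_.smul_apply, smul_eq_mul]
  ring

/-- the model function -/
noncomputable def GT_T (m W : ℂ → ℂ) (r : ℝ) (x : ℂ) : ℝ :=
  (-(3 / 4)) * Real.log (Complex.normSq (m x)) + ((1 / 4) * Real.log (Complex.normSq (m x) + r ^ 2) +
    2 * Real.log (Complex.normSq (W x)))

theorem GT_pos (w : ℂ) (r : ℝ) (hr : 0 < r) : Complex.normSq w + r ^ 2 ≠ 0 := by
  have h1 := Complex.normSq_nonneg w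
  have h2 : 0 < r ^ 2 := by positivity
  linarith

theorem GT_s1 (m : ℂ → ℂ) (Ω : Set ℂ) (hΩ : IsOpen Ω) (hm : DifferentiableOn ℂ m Ω) (h0 : ∀ x ∈ Ω, m x ≠ 0) :
    ContDiffOn ℝ ∞ (fun x => Real.log (Complex.normSq (m x))) Ω := by
  have h1 : ContDiffOn ℝ ∞ (fun x => Complex.normSq (m x)) Ω := CH1_normSq.comp_contDiffOn (CH1_smooth m Ω hΩ hm)
  exact h1.log (fun x hx => (Complex.normSq_pos.2 (h0 x hx)).ne')

theorem GT_s2 (m : ℂ → ℂ) (r : ℝ) (hr : 0 < r) (Ω : Set ℂ) (hΩ : IsOpen Ω) (hm : DifferentiableOn ℂ m Ω) :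
    ContDiffOn ℝ ∞ (fun x => Real.log (Complex.normSq (m x) + r ^ 2)) Ω := by
  have h1 : ContDiffOn ℝ ∞ (fun x => Complex.normSq (m x) + r ^ 2) Ω :=
    (CH1_normSq.comp_contDiffOn (CH1_smooth m Ω hΩ hm)).add contDiffOn_const
  exact h1.log (fun x _ => GT_pos (m x) r hr)

theorem GT_smooth (m W : ℂ → ℂ) (r : ℝ) (hr : 0 < r) (Ω : Set ℂ) (hΩ : IsOpen Ω) (hm : DifferentiableOn ℂ m Ω)
    (hW : DifferentiableOn ℂ W Ω) (hm0 : ∀ x ∈ Ω, m x ≠ 0) (hW0 : ∀ x ∈ Ω, W x ≠ 0) :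
    ContDiffOn ℝ ∞ (GT_T m W r) Ω :=
  (contDiffOn_const.mul (GT_s1 m Ω hΩ hm hm0)).add
    ((contDiffOn_const.mul (GT_s2 m r hr Ω hΩ hm)).add (contDiffOn_const.mul (GT_s1 W Ω hΩ hW hW0)))

theorem GT_at (f : ℂ → ℝ) (Ω : Set ℂ) (hΩ : IsOpen Ω) (hf : ContDiffOn ℝ ∞ f Ω) (x : ℂ) (hx : x ∈ Ω) :
    ContDiffAt ℝ 2 f x :=
  (hf.contDiffAt (hΩ.mem_nhds hx)).of_le ENat.LEInfty.out

/-- logarithms of holomorphic functions are harmonic -/
theorem GT_harm (f : ℂ → ℂ) (Ω : Set ℂ) (hΩ : IsOpen Ω) (hf : DifferentiableOn ℂ f Ω) (x : ℂ) (hx : x ∈ Ω)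
    (h0 : ∀ x ∈ Ω, f x ≠ 0) : lap (fun x => Real.log (Complex.normSq (f x))) x = 0 := by
  have h := MAU_core f (fun _ => 0) x 1 Ω hΩ hx hf (differentiableOn_const 0) (Or.inl (h0 x hx))
  have e : (fun t => (1 / 2) * Real.log (Complex.normSq (f t) + Complex.normSq ((fun _ : ℂ => (0 : ℂ)) t)) / 1) =
      fun t => (1 / 2) * (fun x => Real.log (Complex.normSq (f x))) t := by
    funext t
    simp
  rw [e, GT_lap_mul _ _ _ (GT_at _ Ω hΩ (GT_s1 f Ω hΩ hf h0) x hx)] at h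
  have e2 : f x * deriv (fun _ : ℂ => (0 : ℂ)) x - (fun _ : ℂ => (0 : ℂ)) x * deriv f x = 0 := by
    simp
  rw [e2, map_zero, mul_zero, zero_div, zero_div] at h
  linarith

theorem GT_mid (m : ℂ → ℂ) (r : ℝ) (hr : 0 < r) (Ω : Set ℂ) (hΩ : IsOpen Ω) (hm : DifferentiableOn ℂ m Ω)
    (x : ℂ) (hx : x ∈ Ω) : lap (fun x => Real.log (Complex.normSq (m x) + r ^ 2)) x =
      r ^ 2 * Complex.normSq (deriv m x) / (Complex.normSq (m x) + r ^ 2) ^ 2 := by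
  have hr0 : (r : ℂ) ≠ 0 := by exact_mod_cast hr.ne'
  have h := MAU_core m (fun _ => (r : ℂ)) x 1 Ω hΩ hx hm (differentiableOn_const _) (Or.inr hr0)
  have e : (fun t => (1 / 2) * Real.log (Complex.normSq (m t) + Complex.normSq ((fun _ : ℂ => (r : ℂ)) t)) / 1) =
      fun t => (1 / 2) * (fun x => Real.log (Complex.normSq (m x) + r ^ 2)) t := by
    funext t
    simp [sq]
  rw [e, GT_lap_mul _ _ _ (GT_at _ Ω hΩ (GT_s2 m r hr Ω hΩ hm) x hx)] at h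
  have e2 : m x * deriv (fun _ : ℂ => (r : ℂ)) x - (fun _ : ℂ => (r : ℂ)) x * deriv m x = -((r : ℂ) * deriv m x) := by
    simp
  have e3 : Complex.normSq ((fun _ : ℂ => (r : ℂ)) x) = r ^ 2 := by
    simp [sq]
  have e4 : Complex.normSq ((r : ℂ)) = r ^ 2 := by
    simp [sq]
  rw [e2, e3, Complex.normSq_neg, Complex.normSq_mul, e4] at h
  have h2 : lap (fun x => Real.log (Complex.normSq (m x) + r ^ 2)) x =
      2 * ((1 / 2) * (r ^ 2 * Complex.normSq (deriv m x)) / (Complex.normSq (m x) + r ^ 2) ^ 2 / 1) := by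
    rw [← h]
    ring
  rw [h2]
  ring

theorem GT_lap (m W : ℂ → ℂ) (r : ℝ) (hr : 0 < r) (Ω : Set ℂ) (hΩ : IsOpen Ω) (hm : DifferentiableOn ℂ m Ω)
    (hW : DifferentiableOn ℂ W Ω) (hm0 : ∀ x ∈ Ω, m x ≠ 0) (hW0 : ∀ x ∈ Ω, W x ≠ 0) (x : ℂ) (hx : x ∈ Ω) :
    lap (GT_T m W r) x = (1 / 4) * (r ^ 2 * Complex.normSq (deriv m x) / (Complex.normSq (m x) + r ^ 2) ^ 2) := by
  have s1 := GT_at _ Ω hΩ (GT_s1 m Ω hΩ hm hm0) x hx
  have s2 := GT_at _ Ω hΩ (GT_s2 m r hr Ω hΩ hm) x hx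
  have s3 := GT_at _ Ω hΩ (GT_s1 W Ω hΩ hW hW0) x hx
  have s1' : ContDiffAt ℝ 2 (fun x => (-(3 / 4 : ℝ)) * Real.log (Complex.normSq (m x))) x := contDiffAt_const.mul s1
  have s2' : ContDiffAt ℝ 2 (fun x => (1 / 4 : ℝ) * Real.log (Complex.normSq (m x) + r ^ 2)) x := contDiffAt_const.mul s2
  have s3' : ContDiffAt ℝ 2 (fun x => (2 : ℝ) * Real.log (Complex.normSq (W x))) x := contDiffAt_const.mul s3
  have e : GT_T m W r = fun x => (fun x => (-(3 / 4 : ℝ)) * Real.log (Complex.normSq (m x))) x +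
      (fun x => (fun x => (1 / 4 : ℝ) * Real.log (Complex.normSq (m x) + r ^ 2)) x +
        (fun x => (2 : ℝ) * Real.log (Complex.normSq (W x))) x) x := rfl
  rw [e, GT_lap_add _ _ _ s1' (s2'.add s3'), GT_lap_add _ _ _ s2' s3', GT_lap_mul _ _ _ s1, GT_lap_mul _ _ _ s2,
    GT_lap_mul _ _ _ s3, GT_harm m Ω hΩ hm x hx hm0, GT_harm W Ω hΩ hW x hx hW0, GT_mid m r hr Ω hΩ hm x hx]
  ring

/-- the profile `-log s + (1/4) log(1 + r²/s²)` -/
noncomputable def GT_F (r s : ℝ) : ℝ := -Real.log s + (1 / 4) * Real.log (1 + r ^ 2 / s ^ 2)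

theorem GT_F_mono (r a b : ℝ) (ha : 0 < a) (hab : a ≤ b) : GT_F r b ≤ GT_F r a := by
  unfold GT_F
  have hb : 0 < b := ha.trans_le hab
  have h1 : Real.log a ≤ Real.log b := Real.log_le_log ha hab
  have h2 : r ^ 2 / b ^ 2 ≤ r ^ 2 / a ^ 2 :=
    div_le_div_of_nonneg_left (sq_nonneg r) (by positivity) (pow_le_pow_left₀ ha.le hab 2)
  have h3 : 0 ≤ r ^ 2 / b ^ 2 := by positivity
  have h4 : Real.log (1 + r ^ 2 / b ^ 2) ≤ Real.log (1 + r ^ 2 / a ^ 2) :=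
    Real.log_le_log (by linarith) (by linarith)
  linarith

theorem GT_T_eq (m W : ℂ → ℂ) (r : ℝ) (hr : 0 < r) (x : ℂ) (hm : m x ≠ 0) :
    GT_T m W r x = GT_F r ‖m x‖ + 4 * Real.log ‖W x‖ := by
  unfold GT_T GT_F
  have hn : 0 < ‖m x‖ := norm_pos_iff.2 hm
  have h1 : 1 + r ^ 2 / ‖m x‖ ^ 2 = (‖m x‖ ^ 2 + r ^ 2) / ‖m x‖ ^ 2 := by
    field_simp
  rw [h1, Real.log_div (by positivity) (by positivity), Complex.normSq_eq_norm_sq, Complex.normSq_eq_norm_sq,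
    Real.log_pow, Real.log_pow]
  push_cast
  ring

theorem GT_Gr (P Q : ℂ → ℂ) (r : ℝ) (z : ℂ) : Gr P Q r z = GT_F r (rh P Q z) + 4 * Real.log ‖Wr P Q z‖ := rfl

theorem GT_Wr (P Q : ℂ → ℂ) (hA : Adm P Q) : DifferentiableOn ℂ (Wr P Q) (ball 0 1) :=
  (hA.2.1.mul (hA.1.deriv isOpen_ball)).sub (hA.1.mul (hA.2.1.deriv isOpen_ball))

theorem GT_N (P Q : ℂ → ℂ) (E : ℝ) (hA : Adm P Q) (z : ℂ) (hz : z ∈ ball (0 : ℂ) 1) (hU : |Up P Q z| ≤ E) :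
    Real.exp (-(2 * E)) ≤ Complex.normSq (P z) + Complex.normSq (Q z) := by
  have hN : 0 < Complex.normSq (P z) + Complex.normSq (Q z) := by
    rcases hA.2.2 z hz with h | h
    · have h1 := Complex.normSq_pos.2 h
      have h2 := Complex.normSq_nonneg (Q z)
      linarith
    · have h1 := Complex.normSq_pos.2 h
      have h2 := Complex.normSq_nonneg (P z)
      linarith
  rw [← Real.le_log_iff_exp_le hN]
  have h3 := (abs_le.1 hU).1
  unfold Up at h3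
  linarith

theorem GT_bounds (hGB : GB_stmt) (P Q : ℂ → ℂ) (E r R K : ℝ) (hA : Adm P Q) (hE : 1 ≤ E)
    (hU : ∀ z ∈ ball (0 : ℂ) 1, |Up P Q z| ≤ E) (hr : 0 < r) (hr1 : r < 1) (hR1 : R < 1)
    (z : ℂ) (hz : z ∈ ball (0 : ℂ) R) (hW : Wr P Q z ≠ 0) (hK : -K < Gr P Q r z) :
    Real.exp (-(60 * E - 3 * Real.log (1 - R) + 1 + 3 * (K + 60 * E - 3 * Real.log (1 - R) + 1))) ≤ rh P Q z ∧
      sph P Q z ≤ Real.exp (2 * (20 * E - Real.log (1 - R) + 1 / 3) + 4 * E) := by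
  have hzR : ‖z‖ < R := by simpa using hz
  have hz1 : z ∈ ball (0 : ℂ) 1 := by
    have : ‖z‖ < 1 := hzR.trans hR1
    simpa using this
  obtain ⟨h1, h2, h3⟩ := hGB P Q E r hA hE hU hr hr1.le z hz1 hW
  have hl : Real.log (1 - R) ≤ Real.log (1 - ‖z‖) := Real.log_le_log (by linarith) (by linarith)
  have hWlow : -(K + 60 * E - 3 * Real.log (1 - R) + 1) ≤ Real.log ‖Wr P Q z‖ := by linarith
  have hWup : Real.log ‖Wr P Q z‖ ≤ 20 * E - Real.log (1 - R) + 1 / 3 := by linarith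
  have hWp : 0 < ‖Wr P Q z‖ := norm_pos_iff.2 hW
  constructor
  · rw [← Real.le_log_iff_exp_le h1]
    have h4 : 0 ≤ Real.log (1 + r ^ 2 / rh P Q z ^ 2) := by
      apply Real.log_nonneg
      have : 0 ≤ r ^ 2 / rh P Q z ^ 2 := by positivity
      linarith
    have h5 : Gr P Q r z = -Real.log (rh P Q z) + (1 / 4) * Real.log (1 + r ^ 2 / rh P Q z ^ 2) +
        4 * Real.log ‖Wr P Q z‖ := rfl
    linarith
  · have h6 := GT_N P Q E hA z hz1 (hU z hz1)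
    have h7 : 0 < Real.exp (-(2 * E)) := Real.exp_pos _
    have h8 : ‖Wr P Q z‖ ≤ Real.exp (20 * E - Real.log (1 - R) + 1 / 3) := (Real.log_le_iff_le_exp hWp).1 hWup
    unfold sph
    rw [div_le_iff₀ (pow_pos (h7.trans_le h6) 2), Complex.normSq_eq_norm_sq]
    calc ‖Wr P Q z‖ ^ 2 ≤ Real.exp (20 * E - Real.log (1 - R) + 1 / 3) ^ 2 := pow_le_pow_left₀ hWp.le h8 2
      _ = Real.exp (2 * (20 * E - Real.log (1 - R) + 1 / 3) + 4 * E) * Real.exp (-(2 * E)) ^ 2 := by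
        rw [← Real.exp_nat_mul, ← Real.exp_nat_mul, ← Real.exp_add]
        congr 1
        push_cast
        ring
      _ ≤ Real.exp (2 * (20 * E - Real.log (1 - R) + 1 / 3) + 4 * E) *
          (Complex.normSq (P z) + Complex.normSq (Q z)) ^ 2 := by
        apply mul_le_mul_of_nonneg_left (pow_le_pow_left₀ h7.le h6 2) (Real.exp_pos _).le

/-- the inverse branch covers a ball of uniform radius -/
theorem GT_cover (hQOM : QOM_stmt) (hBRA : BRA_stmt) (P Q : ℂ → ℂ) (hA : Adm P Q) (z : ℂ)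
    (hz1 : z ∈ ball (0 : ℂ) 1) (X : ℂ → ℂ) (hρ0 : 0 < rh P Q z) (hX : Br P Q (ball 0 1) z (rh P Q z) X)
    (S a δ : ℝ) (hS : sph P Q z ≤ S) (hS0 : 0 < S) (ha : 0 < a) (haρ : a ≤ rh P Q z) (hδ : δ ≤ a ^ 2 / (64 * S)) :
    ∀ x ∈ ball z δ, x ∈ ball (0 : ℂ) 1 ∧ P x * conj (P z) + Q x * conj (Q z) ≠ 0 ∧
      Hz P Q z x ∈ ball (0 : ℂ) (rh P Q z / 16) ∧ X (Hz P Q z x) = x ∧ Wr P Q x ≠ 0 := by
  obtain ⟨hb1, hb2, hb3⟩ := hBRA P Q hA z hz1
  obtain ⟨_, hinj, hX2⟩ := hb2 (rh P Q z) X hρ0 hX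
  obtain ⟨_, _, _, h0⟩ := hX2 0 (mem_ball_self hρ0)
  rw [hX.2.1, map_zero, add_zero, one_pow, mul_one] at h0
  have hne : deriv X 0 ≠ 0 := by
    intro h
    rw [h, map_zero, zero_mul] at h0
    exact zero_ne_one h0
  obtain ⟨g, hg1, hg0, hg2⟩ := hQOM X 0 (rh P Q z) 2 hρ0 two_pos hX.1 (by
    intro x hx
    have e1 := (hX.2.2 x hx).1
    have e2 := (hX.2.2 0 (mem_ball_self hρ0)).1
    have e3 : ‖X x‖ < 1 := by simpa using e1
    have e4 : ‖X 0‖ < 1 := by simpa using e2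
    calc ‖X x - X 0‖ ≤ ‖X x‖ + ‖X 0‖ := norm_sub_le _ _
      _ ≤ 2 := by linarith) hne
  rw [hX.2.1] at hg2
  intro x hx
  have hsub : x ∈ ball z (‖deriv X 0‖ ^ 2 * rh P Q z ^ 2 / (32 * 2)) := by
    refine ball_subset_ball ?_ hx
    refine hδ.trans ?_
    rw [← Complex.normSq_eq_norm_sq]
    have hsp : 0 < sph P Q z := by
      have h1 : 0 ≤ sph P Q z := by
        unfold sph
        have := Complex.normSq_nonneg (Wr P Q z)
        positivity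
      rcases h1.lt_or_eq with h | h
      · exact h
      · rw [← h, mul_zero] at h0
        exact absurd h0 zero_ne_one
    have e1 : Complex.normSq (deriv X 0) = 1 / sph P Q z := by
      field_simp
      linarith
    rw [e1]
    have e2 : 1 / S ≤ 1 / sph P Q z := one_div_le_one_div_of_le hsp hS
    have e3 : a ^ 2 ≤ rh P Q z ^ 2 := pow_le_pow_left₀ ha.le haρ 2
    calc a ^ 2 / (64 * S) = 1 / S * a ^ 2 / 64 := by
          field_simp
      _ ≤ 1 / sph P Q z * rh P Q z ^ 2 / 64 := by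
          apply div_le_div_of_nonneg_right _ (by norm_num)
          apply mul_le_mul e2 e3 (by positivity) (by positivity)
      _ = 1 / sph P Q z * rh P Q z ^ 2 / (32 * 2) := by norm_num
  obtain ⟨hgx, hXg⟩ := hg2 x hsub
  have hgx' : g x ∈ ball (0 : ℂ) (rh P Q z) := by
    refine ball_subset_ball ?_ hgx
    linarith
  obtain ⟨k1, k2, k3, _⟩ := hX2 (g x) hgx'
  have k4 := (hX.2.2 (g x) hgx').1
  rw [hXg] at k1 k2 k3 k4
  refine ⟨k4, k1, ?_, ?_, k3⟩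
  · rw [k2]
    exact hgx
  · rw [k2]
    exact hXg

theorem GT_one (hBRC : BRC_stmt) (hGB : GB_stmt) (P Q : ℂ → ℂ) (E r δ : ℝ) (hA : Adm P Q) (hE : 1 ≤ E)
    (hU : ∀ z ∈ ball (0 : ℂ) 1, |Up P Q z| ≤ E) (hr : 0 < r) (hr1 : r < 1) (z : ℂ)
    (hcov : ∀ x ∈ ball z δ, x ∈ ball (0 : ℂ) 1 ∧ Wr P Q x ≠ 0) (hρ : rh P Q z = 1) :
    ∃ T : ℂ → ℝ, ContDiffOn ℝ ∞ T (ball z δ) ∧ T z = Gr P Q r z ∧
      (∀ x ∈ ball z δ, Wr P Q x ≠ 0 ∧ T x ≤ Gr P Q r x ∧ 0 ≤ lap T x) ∧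
        (rh P Q z ≤ r → sph P Q z ≤ 16 * r ^ 2 * lap T z) := by
  have hWd : DifferentiableOn ℂ (Wr P Q) (ball z δ) := (GT_Wr P Q hA).mono (fun x hx => (hcov x hx).1)
  have hW0 : ∀ x ∈ ball z δ, Wr P Q x ≠ 0 := fun x hx => (hcov x hx).2
  have h1 : DifferentiableOn ℂ (fun _ : ℂ => (1 : ℂ)) (ball z δ) := differentiableOn_const _
  have h10 : ∀ x ∈ ball z δ, (fun _ : ℂ => (1 : ℂ)) x ≠ 0 := fun x _ => one_ne_zero
  refine ⟨GT_T (fun _ => 1) (Wr P Q) r, GT_smooth _ _ r hr _ isOpen_ball h1 hWd h10 hW0, ?_, ?_, ?_⟩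
  · rw [GT_T_eq _ _ r hr z one_ne_zero, GT_Gr, hρ, norm_one]
  · intro x hx
    refine ⟨hW0 x hx, ?_, ?_⟩
    · rw [GT_T_eq _ _ r hr x one_ne_zero, GT_Gr, norm_one]
      have h2 := (hGB P Q E r hA hE hU hr hr1.le x (hcov x hx).1 (hW0 x hx)).1
      have h3 := (hBRC P Q hA x (hcov x hx).1).2.1
      have h4 := GT_F_mono r (rh P Q x) 1 h2 h3
      linarith
    · rw [GT_lap _ _ r hr _ isOpen_ball h1 hWd h10 hW0 x hx]
      have := Complex.normSq_nonneg (deriv (fun _ : ℂ => (1 : ℂ)) x)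
      positivity
  · intro h
    rw [hρ] at h
    linarith

theorem GT_two (hBRA : BRA_stmt) (hTCH : TCH_stmt) (hGB : GB_stmt) (P Q : ℂ → ℂ) (E r δ : ℝ) (hA : Adm P Q)
    (hE : 1 ≤ E) (hU : ∀ z ∈ ball (0 : ℂ) 1, |Up P Q z| ≤ E) (hr : 0 < r) (hr1 : r < 1) (hδ0 : 0 < δ) (z : ℂ)
    (hz1 : z ∈ ball (0 : ℂ) 1) (X : ℂ → ℂ) (hρ0 : 0 < rh P Q z) (hX : Br P Q (ball 0 1) z (rh P Q z) X)
    (hcov : ∀ x ∈ ball z δ, x ∈ ball (0 : ℂ) 1 ∧ P x * conj (P z) + Q x * conj (Q z) ≠ 0 ∧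
      Hz P Q z x ∈ ball (0 : ℂ) (rh P Q z / 16) ∧ X (Hz P Q z x) = x ∧ Wr P Q x ≠ 0) (hρ : rh P Q z < 1) :
    ∃ T : ℂ → ℝ, ContDiffOn ℝ ∞ T (ball z δ) ∧ T z = Gr P Q r z ∧
      (∀ x ∈ ball z δ, Wr P Q x ≠ 0 ∧ T x ≤ Gr P Q r x ∧ 0 ≤ lap T x) ∧
        (rh P Q z ≤ r → sph P Q z ≤ 16 * r ^ 2 * lap T z) := by
  obtain ⟨hb1, hb2, hb3⟩ := hBRA P Q hA z hz1
  obtain ⟨u, hu, hu2⟩ := hTCH P Q hA z hz1 X hX hρ0 hρ
  have hWd : DifferentiableOn ℂ (Wr P Q) (ball z δ) := (GT_Wr P Q hA).mono (fun x hx => (hcov x hx).1)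
  have hW0 : ∀ x ∈ ball z δ, Wr P Q x ≠ 0 := fun x hx => (hcov x hx).2.2.2.2
  have hzδ : z ∈ ball z δ := mem_ball_self hδ0
  have hsm : ∀ x ∈ ball z δ, ‖Hz P Q z x‖ < rh P Q z / 16 := fun x hx => by
    have := (hcov x hx).2.2.1
    simpa using this
  have hden : ∀ x ∈ ball z δ, 1 + conj u * Hz P Q z x ≠ 0 := by
    intro x hx h
    have e1 : conj u * Hz P Q z x = -1 := by
      linear_combination h
    have e2 : ‖conj u * Hz P Q z x‖ = 1 := by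
      rw [e1, norm_neg, norm_one]
    rw [norm_mul, RCLike.norm_conj, hu] at e2
    have e3 := hsm x hx
    have e4 : 0 ≤ ‖Hz P Q z x‖ := norm_nonneg _
    nlinarith
  have hHd : ∀ x ∈ ball z δ, DifferentiableAt ℂ (Hz P Q z) x := fun x hx =>
    (hb1 x (hcov x hx).1 (hcov x hx).2.1).1
  have hmd : DifferentiableOn ℂ (fun x => (Hz P Q z x - u) / (1 + conj u * Hz P Q z x)) (ball z δ) := by
    intro x hx
    exact (((hHd x hx).sub_const u).div (((hHd x hx).const_mul (conj u)).const_add 1) (hden x hx)).differentiableWithinAt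
  have hm0 : ∀ x ∈ ball z δ, (fun x => (Hz P Q z x - u) / (1 + conj u * Hz P Q z x)) x ≠ 0 := by
    intro x hx
    apply div_ne_zero _ (hden x hx)
    intro h
    have e1 : Hz P Q z x = u := sub_eq_zero.1 h
    have e2 := hsm x hx
    rw [e1, hu] at e2
    linarith
  have hzz : Hz P Q z z = 0 := by
    unfold Hz
    rw [mul_comm (Q z), sub_self, zero_div]
  have hmz : (Hz P Q z z - u) / (1 + conj u * Hz P Q z z) = -u := by
    rw [hzz]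
    simp
  refine ⟨GT_T (fun x => (Hz P Q z x - u) / (1 + conj u * Hz P Q z x)) (Wr P Q) r,
    GT_smooth _ _ r hr _ isOpen_ball hmd hWd hm0 hW0, ?_, ?_, ?_⟩
  · rw [GT_T_eq _ _ r hr z (hm0 z hzδ), GT_Gr, hmz, norm_neg, hu]
  · intro x hx
    refine ⟨hW0 x hx, ?_, ?_⟩
    · rw [GT_T_eq _ _ r hr x (hm0 x hx), GT_Gr]
      have h2 := (hGB P Q E r hA hE hU hr hr1.le x (hcov x hx).1 (hW0 x hx)).1
      have h3 : rh P Q x ≤ ‖(fun x => (Hz P Q z x - u) / (1 + conj u * Hz P Q z x)) x‖ := by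
        show rh P Q x ≤ ‖(Hz P Q z x - u) / (1 + conj u * Hz P Q z x)‖
        rw [norm_div]
        have h5 := hu2 (Hz P Q z x) (by
          have := hsm x hx
          have h6 : ‖Hz P Q z x‖ < rh P Q z := by linarith
          simpa using h6)
        rw [(hcov x hx).2.2.2.1] at h5
        exact h5
      have h4 := GT_F_mono r (rh P Q x) _ h2 h3
      linarith
    · rw [GT_lap _ _ r hr _ isOpen_ball hmd hWd hm0 hW0 x hx]
      have := Complex.normSq_nonneg (deriv (fun x => (Hz P Q z x - u) / (1 + conj u * Hz P Q z x)) x)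
      positivity
  · intro hρr
    rw [GT_lap _ _ r hr _ isOpen_ball hmd hWd hm0 hW0 z hzδ, hmz, Complex.normSq_neg, Complex.normSq_eq_norm_sq u, hu]
    have hd := (hHd z hzδ).hasDerivAt
    have hdm := ((hd.sub_const u).div ((hd.const_mul (conj u)).const_add 1) (hden z hzδ)).deriv
    have hdm' : deriv (fun x => (Hz P Q z x - u) / (1 + conj u * Hz P Q z x)) z =
        deriv (Hz P Q z) z * ((1 + (rh P Q z) ^ 2 : ℝ) : ℂ) := by
      refine hdm.trans ?_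
      rw [hzz]
      have hcu : u * conj u = ((rh P Q z ^ 2 : ℝ) : ℂ) := by
        rw [Complex.mul_conj, Complex.normSq_eq_norm_sq, hu]
      push_cast at hcu ⊢
      rw [← hcu]
      ring
    have hsq : Complex.normSq (deriv (Hz P Q z) z) = sph P Q z := by
      rw [(hb1 z hz1 (hcov z hzδ).2.1).2, hzz]
      simp
    rw [hdm', Complex.normSq_mul, hsq, Complex.normSq_ofReal]
    have hs0 : 0 ≤ sph P Q z := by
      rw [← hsq]
      exact Complex.normSq_nonneg _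
    have hρ2 : rh P Q z ^ 2 ≤ r ^ 2 := pow_le_pow_left₀ hρ0.le hρr 2
    have hr2 : 0 < r ^ 2 := by positivity
    have hρp : 0 < rh P Q z ^ 2 := by positivity
    have key : (rh P Q z ^ 2 + r ^ 2) ^ 2 ≤ 4 * (r ^ 2) ^ 2 * ((1 + rh P Q z ^ 2) * (1 + rh P Q z ^ 2)) := by
      have h1 : rh P Q z ^ 2 + r ^ 2 ≤ 2 * r ^ 2 * (1 + rh P Q z ^ 2) := by nlinarith
      have h2 : (rh P Q z ^ 2 + r ^ 2) ^ 2 ≤ (2 * r ^ 2 * (1 + rh P Q z ^ 2)) ^ 2 :=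
        pow_le_pow_left₀ (by positivity) h1 2
      linarith [h2]
    have hpos : 0 < (rh P Q z ^ 2 + r ^ 2) ^ 2 := by positivity
    have e : 16 * r ^ 2 * (1 / 4 * (r ^ 2 * (sph P Q z * ((1 + rh P Q z ^ 2) * (1 + rh P Q z ^ 2))) /
        (rh P Q z ^ 2 + r ^ 2) ^ 2)) = sph P Q z * (4 * (r ^ 2) ^ 2 * ((1 + rh P Q z ^ 2) * (1 + rh P Q z ^ 2))) /
        (rh P Q z ^ 2 + r ^ 2) ^ 2 := by ring
    rw [e, le_div_iff₀ hpos]
    exact mul_le_mul_of_nonneg_left key hs0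

theorem GT (hQOM : QOM_stmt) (hBRA : BRA_stmt) (hBRC : BRC_stmt) (hTCH : TCH_stmt) (hGB : GB_stmt) : GT_stmt := by
  intro P Q E r R K hA hE hU hr hr1 hR hR1
  obtain ⟨S, hSdef⟩ : ∃ S : ℝ, S = Real.exp (2 * (20 * E - Real.log (1 - R) + 1 / 3) + 4 * E) := ⟨_, rfl⟩
  obtain ⟨a, hadef⟩ : ∃ a : ℝ, a = Real.exp (-(60 * E - 3 * Real.log (1 - R) + 1 +
    3 * (K + 60 * E - 3 * Real.log (1 - R) + 1))) := ⟨_, rfl⟩
  have hS0 : 0 < S := by
    rw [hSdef]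
    exact Real.exp_pos _
  have ha0 : 0 < a := by
    rw [hadef]
    exact Real.exp_pos _
  have h1R : 0 < (1 - R) / 2 := by linarith
  have hδ0 : 0 < min (a ^ 2 / (64 * S)) ((1 - R) / 2) := lt_min (by positivity) h1R
  refine ⟨min (a ^ 2 / (64 * S)) ((1 - R) / 2), hδ0, ?_, ?_⟩
  · have := min_le_right (a ^ 2 / (64 * S)) ((1 - R) / 2)
    linarith
  intro z hz hW hK
  obtain ⟨hρ1, hS⟩ := GT_bounds hGB P Q E r R K hA hE hU hr hr1 hR1 z hz hW hK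
  rw [← hadef] at hρ1
  rw [← hSdef] at hS
  have hz1 : z ∈ ball (0 : ℂ) 1 := ball_subset_ball hR1.le hz
  obtain ⟨_, hle, ⟨X, hX⟩, _, _⟩ := hBRC P Q hA z hz1
  have hρ0 : 0 < rh P Q z := (hGB P Q E r hA hE hU hr hr1.le z hz1 hW).1
  have hcov := GT_cover hQOM hBRA P Q hA z hz1 X hρ0 hX S a _ hS hS0 ha0 hρ1 (min_le_left (a ^ 2 / (64 * S)) ((1 - R) / 2))
  rcases hle.lt_or_eq with hlt | heq
  · exact GT_two hBRA hTCH hGB P Q E r _ hA hE hU hr hr1 hδ0 z hz1 X hρ0 hX hcov hlt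
  · exact GT_one hBRC hGB P Q E r _ hA hE hU hr hr1 z (fun x hx => ⟨(hcov x hx).1, (hcov x hx).2.2.2.2⟩) heq

end Pool.Agent.P2I
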