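import Pool.Agent.helper37.P2.SpecD

set_option autoImplicit false
set_option linter.unusedVariables false

/-!
# Project P2, row TEN: the Gauss energy of the sheets in a tube is bounded by the energy in the chart
-/

open scoped ContDiff Topology
open MeasureTheory Filter Set Metric MvPolynomial Pool.Agent.helper37.QA

namespace Pool.Agent.P2

theorem TEN_cht (ι : Fin 2) (p : ℂ × ℂ) (i : Fin 3) : AnalyticAt ℂ (fun q : ℂ × ℂ => cht ι q.1 q.2 i) p := by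
  unfold cht
  by_cases h : ι = 0
  · simp only [h, if_true]
    fin_cases i
    · exact analyticAt_const
    · exact analyticAt_fst
    · exact analyticAt_snd
  · simp only [h, if_false]
    fin_cases i
    · exact analyticAt_fst
    · exact analyticAt_const
    · exact analyticAt_snd

theorem TEN_an {d : ℕ} (f : Endo 2 d) (n : ℕ) (ι : Fin 2) (p : ℂ × ℂ) (i : Fin 3) :
    AnalyticAt ℂ (fun q : ℂ × ℂ => It f n (cht ι q.1 q.2) i) p := by
  have h := AnalyticAt.aeval_mvPolynomial (𝕜 := ℂ) (f := fun q : ℂ × ℂ => cht ι q.1 q.2) (z := p)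
    (fun i => TEN_cht ι p i) (iter f.F n i)
  have e : (fun q : ℂ × ℂ => It f n (cht ι q.1 q.2) i) = fun q : ℂ × ℂ => aeval (cht ι q.1 q.2) (iter f.F n i) := by
    funext q
    have h1 : (aeval (cht ι q.1 q.2)) (iter f.F n i) = eval (cht ι q.1 q.2) (iter f.F n i) := by
      rw [aeval_def, eval₂_eq_eval_map, Algebra.algebraMap_self, MvPolynomial.map_id]
    rw [h1]
    rfl
  rw [e]
  exact h

/-- the shear -/
noncomputable def TEN_sh (g : ℂ → ℂ) (hg : Measurable g) : (ℂ × ℂ) ≃ᵐ (ℂ × ℂ) where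
  toFun p := (p.1, p.2 + g p.1)
  invFun p := (p.1, p.2 - g p.1)
  left_inv p := by simp
  right_inv p := by simp
  measurable_toFun := measurable_fst.prodMk (measurable_snd.add (hg.comp measurable_fst))
  measurable_invFun := measurable_fst.prodMk (measurable_snd.sub (hg.comp measurable_fst))

theorem TEN_shmp (g : ℂ → ℂ) (hg : Measurable g) :
    MeasurePreserving (TEN_sh g hg) (volume : Measure (ℂ × ℂ)) volume := by
  have h := MeasurePreserving.skew_product (μa := (volume : Measure ℂ)) (μb := (volume : Measure ℂ))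
    (μc := (volume : Measure ℂ)) (μd := (volume : Measure ℂ)) (f := id) (MeasurePreserving.id _)
    (g := fun x v => v + g x) (by exact (measurable_snd.add (hg.comp measurable_fst)))
    (Filter.Eventually.of_forall fun x => (measurePreserving_add_right volume (g x)).map_eq)
  exact h

theorem TEN_meas (γ : ℂ → ℂ) (κ : ℝ) (hγ : DifferentiableOn ℂ γ (ball 0 1)) :
    Measurable ((ball (0 : ℂ) 1).indicator (fun ξ => γ ξ / κ)) := by
  have h1 : ContinuousOn (fun ξ => γ ξ / κ) (ball (0 : ℂ) 1) := hγ.continuousOn.div_const _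
  classical
  have h2 := ContinuousOn.measurable_piecewise (g := (0 : ℂ → ℂ)) h1 continuousOn_const measurableSet_ball
  rwa [Set.piecewise_eq_indicator] at h2

/-- the homothety and translation -/
theorem TEN_hom (κ : ℝ) (hκ : 0 < κ) (c : ℂ) (F : ℂ × ℂ → ENNReal) :
    ∫⁻ p : ℂ × ℂ, F (c + κ * p.1, κ * p.2) = ENNReal.ofReal ((κ ^ 4)⁻¹) * ∫⁻ q : ℂ × ℂ, F q := by
  have h1 : ∀ p : ℂ × ℂ, F (c + κ * p.1, κ * p.2) = (fun q : ℂ × ℂ => F (((c, 0) : ℂ × ℂ) + q)) (κ • p) := by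
    intro p
    have h0 : ((c + κ * p.1, κ * p.2) : ℂ × ℂ) = ((c, 0) : ℂ × ℂ) + κ • p := by
      refine Prod.ext ?_ ?_
      · show c + κ * p.1 = c + κ • p.1
        rw [Complex.real_smul]
      · show κ * p.2 = 0 + κ • p.2
        rw [Complex.real_smul, zero_add]
    show F (c + κ * p.1, κ * p.2) = F (((c, 0) : ℂ × ℂ) + κ • p)
    rw [h0]
  have hI : (volume : Measure (ℂ × ℂ)).IsAddHaarMeasure := by
    rw [Measure.volume_eq_prod]
    infer_instance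
  simp_rw [h1]
  have hr : κ ≠ 0 := hκ.ne'
  have h2 := (Homeomorph.smulOfNeZero κ hr : (ℂ × ℂ) ≃ₜ (ℂ × ℂ)).toMeasurableEquiv.measurableEmbedding.lintegral_map
    (μ := (volume : Measure (ℂ × ℂ))) (fun q : ℂ × ℂ => F (((c, 0) : ℂ × ℂ) + q))
  have h3 : Measure.map (fun p : ℂ × ℂ => κ • p) (volume : Measure (ℂ × ℂ)) =
      ENNReal.ofReal |(κ ^ Module.finrank ℝ (ℂ × ℂ))⁻¹| • volume := Measure.map_addHaar_smul volume hr
  have h4 : Module.finrank ℝ (ℂ × ℂ) = 4 := by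
    rw [Module.finrank_prod, Complex.finrank_real_complex]
  have h5 : |(κ ^ 4)⁻¹| = (κ ^ 4)⁻¹ := abs_of_pos (by positivity)
  rw [h4, h5] at h3
  have h6 : ∫⁻ q, F (((c, 0) : ℂ × ℂ) + q) ∂(Measure.map (fun p : ℂ × ℂ => κ • p) (volume : Measure (ℂ × ℂ))) =
      ∫⁻ p : ℂ × ℂ, F (((c, 0) : ℂ × ℂ) + κ • p) := h2
  have h7 : ∫⁻ q : ℂ × ℂ, F (((c, 0) : ℂ × ℂ) + q) = ∫⁻ q : ℂ × ℂ, F q :=
    lintegral_add_left_eq_self F ((c, 0) : ℂ × ℂ)
  calc ∫⁻ p : ℂ × ℂ, F (((c, 0) : ℂ × ℂ) + κ • p)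
      = ∫⁻ q, F (((c, 0) : ℂ × ℂ) + q) ∂(Measure.map (fun p : ℂ × ℂ => κ • p) (volume : Measure (ℂ × ℂ))) := h6.symm
    _ = ENNReal.ofReal ((κ ^ 4)⁻¹) * ∫⁻ q : ℂ × ℂ, F q := by
        rw [h3, lintegral_smul_measure, h7, smul_eq_mul]

theorem TEN (hCHB : CHB_stmt) (hTUE : TUE_stmt) : TEN_stmt := by
  classical
  intro d f U hd hG κ hκ hκ1
  obtain ⟨R, hR1, hR⟩ := hCHB.1 d f U hG
  obtain ⟨C0, hC0, hC⟩ := hTUE κ R hκ hR1
  refine ⟨(κ ^ 4)⁻¹ * C0, by positivity, ?_⟩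
  intro n ι c γ t B hc ht hB hγ hU
  set S : Set (ℂ × ℂ) := {q : ℂ × ℂ | ∃ ξ : ℂ, ‖ξ‖ < 1 / 2 ∧ ξ ∉ B ∧ q.1 = c + κ * ξ ∧ ‖q.2 - γ ξ‖ < κ * t} with hS
  have hbd : ∀ ξ ∈ ball (0 : ℂ) 1, ‖γ ξ‖ ≤ R := by
    intro ξ hξ
    have h1 : ‖ξ‖ < 1 := by simpa using hξ
    have h0 := hU ξ hξ 0 (by simpa using (by positivity : 0 < κ * t))
    have h2 : ‖c + κ * ξ‖ ≤ 3 := by
      have := norm_add_le c (κ * ξ)
      have h3 : ‖(κ : ℂ) * ξ‖ ≤ 1 := by
        rw [norm_mul, Complex.norm_real, Real.norm_eq_abs, abs_of_pos hκ]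
        nlinarith [norm_nonneg ξ]
      linarith
    have h4 : cht ι (c + κ * ξ) (γ ξ) ∈ cone U := by
      have : gp ι c κ γ (ξ, 0) = cht ι (c + κ * ξ) (γ ξ) := by simp [gp]
      rwa [this] at h0
    exact hR ι _ _ h2 h4
  -- change of variables
  set g : ℂ → ℂ := (ball (0 : ℂ) 1).indicator (fun ξ => γ ξ / κ) with hg
  have hgm : Measurable g := TEN_meas γ κ hγ
  have hgv : ∀ ξ : ℂ, ‖ξ‖ < 1 / 2 → (κ : ℂ) * g ξ = γ ξ := by
    intro ξ hξ
    have h1 : ξ ∈ ball (0 : ℂ) 1 := by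
      rw [mem_ball_zero_iff]; linarith
    have hk : (κ : ℂ) ≠ 0 := by exact_mod_cast hκ.ne'
    rw [hg, indicator_of_mem h1]
    field_simp
  -- the pointwise bound
  let F : ℂ × ℂ → ENNReal := S.indicator fun q => ENNReal.ofReal (C0 * He f n ι q)
  have hpt : ∀ p : ℂ × ℂ, (if ‖p.1‖ < 1 / 2 ∧ ‖p.2‖ < t ∧ p.1 ∉ B then
      ENNReal.ofReal (P2U.Gd (iP f n ι c κ γ) (iQ f n ι c κ γ) p * P2U.om (iP f n ι c κ γ) (iQ f n ι c κ γ) p / (d : ℝ) ^ n) else 0) ≤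
      F (c + κ * (TEN_sh g hgm p).1, κ * (TEN_sh g hgm p).2) := by
    intro p
    by_cases hp : ‖p.1‖ < 1 / 2 ∧ ‖p.2‖ < t ∧ p.1 ∉ B
    · rw [if_pos hp]
      have hq : ((c + κ * (TEN_sh g hgm p).1, κ * (TEN_sh g hgm p).2) : ℂ × ℂ) = (c + κ * p.1, γ p.1 + κ * p.2) := by
        show ((c + κ * p.1, κ * (p.2 + g p.1)) : ℂ × ℂ) = (c + κ * p.1, γ p.1 + κ * p.2)
        rw [mul_add, hgv p.1 hp.1, add_comm (κ * p.2)]
      rw [hq]
      have hmem : ((c + κ * p.1, γ p.1 + κ * p.2) : ℂ × ℂ) ∈ S := by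
        refine ⟨p.1, hp.1, hp.2.2, rfl, ?_⟩
        have : (γ p.1 + κ * p.2) - γ p.1 = κ * p.2 := by ring
        show ‖(γ p.1 + κ * p.2) - γ p.1‖ < κ * t
        rw [this, norm_mul, Complex.norm_real, Real.norm_eq_abs, abs_of_pos hκ]
        exact mul_lt_mul_of_pos_left hp.2.1 hκ
      have hF : F (c + κ * p.1, γ p.1 + κ * p.2) = ENNReal.ofReal (C0 * He f n ι (c + κ * p.1, γ p.1 + κ * p.2)) :=
        indicator_of_mem hmem _
      rw [hF]
      refine ENNReal.ofReal_le_ofReal ?_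
      have hb := hC (hP f n ι) (hQ f n ι) γ c p hγ hbd hp.1 (TEN_an f n ι _ 0) (TEN_an f n ι _ 1)
      have e1 : iP f n ι c κ γ = fun q : ℂ × ℂ => hP f n ι (c + κ * q.1, γ q.1 + κ * q.2) := rfl
      have e2 : iQ f n ι c κ γ = fun q : ℂ × ℂ => hQ f n ι (c + κ * q.1, γ q.1 + κ * q.2) := rfl
      have e3 : P2U.om (iP f n ι c κ γ) (iQ f n ι c κ γ) p = P2U.om (hP f n ι) (hQ f n ι) (c + κ * p.1, γ p.1 + κ * p.2) := rfl
      have hom : 0 ≤ P2U.om (hP f n ι) (hQ f n ι) (c + κ * p.1, γ p.1 + κ * p.2) := by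
        unfold P2U.om; positivity
      have hdn : (0 : ℝ) ≤ ((d : ℝ) ^ n)⁻¹ := by positivity
      rw [e3, e1, e2]
      unfold He
      rw [div_eq_mul_inv, div_eq_mul_inv]
      calc _ ≤ (C0 * (P2U.Gd (hP f n ι) (hQ f n ι) (c + κ * p.1, γ p.1 + κ * p.2) +
            (‖P2U.cx (hP f n ι) (hQ f n ι) (c + κ * p.1, γ p.1 + κ * p.2)‖ ^ 2 +
              ‖P2U.cv (hP f n ι) (hQ f n ι) (c + κ * p.1, γ p.1 + κ * p.2)‖ ^ 2))) *
            P2U.om (hP f n ι) (hQ f n ι) (c + κ * p.1, γ p.1 + κ * p.2) * ((d : ℝ) ^ n)⁻¹ :=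
            mul_le_mul_of_nonneg_right (mul_le_mul_of_nonneg_right hb hom) hdn
        _ = _ := by ring
    · rw [if_neg hp]
      exact zero_le
  have h1 : EnT f n ι c κ γ t B ≤ ∫⁻ p : ℂ × ℂ, F (c + κ * (TEN_sh g hgm p).1, κ * (TEN_sh g hgm p).2) :=
    lintegral_mono hpt
  have h2 : ∫⁻ p : ℂ × ℂ, F (c + κ * (TEN_sh g hgm p).1, κ * (TEN_sh g hgm p).2) = ∫⁻ p : ℂ × ℂ, F (c + κ * p.1, κ * p.2) :=
    (TEN_shmp g hgm).lintegral_comp_emb (TEN_sh g hgm).measurableEmbedding (fun p : ℂ × ℂ => F (c + κ * p.1, κ * p.2))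
  have h3 := TEN_hom κ hκ c F
  have h4 : ∫⁻ q : ℂ × ℂ, F q ≤ ∫⁻ q in S, ENNReal.ofReal (C0 * He f n ι q) := lintegral_indicator_le _ _
  have h5 : ∫⁻ q in S, ENNReal.ofReal (C0 * He f n ι q) = ENNReal.ofReal C0 * ∫⁻ q in S, ENNReal.ofReal (He f n ι q) := by
    rw [← lintegral_const_mul' _ _ ENNReal.ofReal_ne_top]
    refine lintegral_congr fun q => ?_
    rw [ENNReal.ofReal_mul hC0.le]
  rw [h2, h3] at h1
  refine h1.trans ?_
  rw [ENNReal.ofReal_mul (by positivity), mul_assoc]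
  exact mul_le_mul_right (h4.trans h5.le) _

end Pool.Agent.P2
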